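import Pool.Agent.W626.AH.Stm

/-! Project AH (MP_53fefd_al, helper626), part JD: joint displacement. -/

set_option autoImplicit false

namespace Pool.Agent.W155.AH.Jd

open Pool.Agent.W626.AH

theorem nonneg {S : Type} {d : S → S → ℝ} (h : PD d) (x y : S) : 0 ≤ d x y := by
  have h1 := h.tri x y x
  rw [h.self, h.symm y x] at h1
  linarith

theorem four {S : Type} {d : S → S → ℝ} (h : H1 d) (x y z w : S) :
    d x y + d z w ≤ d x z + d y w + 1 ∨ d x y + d z w ≤ d x w + d y z + 1 := by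
  have h1 := h x y z w
  rcases le_total (d x z + d y w) (d x w + d y z) with h2 | h2
  · right
    rwa [max_eq_right h2] at h1
  · left
    rwa [max_eq_left h2] at h1

theorem nl (hlox : S_lox) {G S : Type} [Group G] [MulAction G S] {d : S → S → ℝ} (hPD : PD d)
    (hH : H1 d) (hI : Isom G d) (hno : ∀ g : G, ¬ Lox d g) (a b : G) (x : S) (L : ℝ)
    (ha : d x (a • x) ≤ L) (hb : d x (b • x) ≤ L) :
    d x ((a * b) • x) ≤ L + 1 ∨ d x ((b * a) • x) ≤ L + 1 := by
  by_contra hcon
  push Not at hcon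
  obtain ⟨h1, h2⟩ := hcon
  obtain ⟨c, hc, hc1, hc2⟩ : ∃ c : ℝ, 0 < c ∧ L + 1 + c ≤ d x ((a * b) • x) ∧
      L + 1 + c ≤ d x ((b * a) • x) := by
    refine ⟨min (d x ((a * b) • x)) (d x ((b * a) • x)) - (L + 1), ?_, ?_, ?_⟩
    · have := lt_min h1 h2
      linarith
    · have := min_le_left (d x ((a * b) • x)) (d x ((b * a) • x))
      linarith
    · have := min_le_right (d x ((a * b) • x)) (d x ((b * a) • x))
      linarith
  have h3 : max (d x (a • x)) (d x (b • x)) ≤ L := max_le ha hb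
  exact hno _ (hlox G S d hPD hH hI a b x c hc (by linarith) (by linarith))

theorem claim (hlox : S_lox) {G S : Type} [Group G] [MulAction G S] {d : S → S → ℝ}
    (hPD : PD d) (hH : H1 d) (hM : Mid d) (hI : Isom G d) (hno : ∀ g : G, ¬ Lox d g)
    (A : Finset G) (x : S) (a : G) (hmax : ∀ b ∈ A, d x (b • x) ≤ d x (a • x))
    (h13 : 13 < d x (a • x)) :
    ∃ m : S, ∀ b ∈ A, d m (b • m) ≤ d x (a • x) - 1 := by
  obtain ⟨lam, hlam⟩ : ∃ lam, lam = d x (a • x) := ⟨_, rfl⟩
  rw [← hlam] at h13 ⊢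
  simp only [← hlam] at hmax
  obtain ⟨m, _, hm1, hm2, -⟩ := hM x (a • x) 2 2 (by norm_num) (le_refl _) (by linarith)
  rw [← hlam] at hm2
  refine ⟨m, fun b hb => ?_⟩
  obtain ⟨β, hβ⟩ : ∃ β, β = d x (b • x) := ⟨_, rfl⟩
  have hβl : β ≤ lam := hβ ▸ hmax b hb
  have hbm : d (b • x) (b • m) = 2 := by rw [hI, hm1]
  by_cases hcase : β ≤ lam - 5
  · have h1 := hPD.tri m x (b • m)
    have h2 := hPD.tri x (b • x) (b • m)
    rw [hPD.symm m x] at h1
    linarith
  · push Not at hcase
    -- the distances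
    have hax' : d x (a⁻¹ • x) = lam := by
      rw [← hI a x (a⁻¹ • x), smul_inv_smul, hPD.symm, hlam]
    have hbx' : d x (b⁻¹ • x) = β := by
      rw [← hI b x (b⁻¹ • x), smul_inv_smul, hPD.symm, hβ]
    have e1 : d x ((a * a) • x) = d (a⁻¹ • x) (a • x) := by
      rw [← hI a⁻¹ x ((a * a) • x), mul_smul, inv_smul_smul]
    have e2 : d x ((b * b) • x) = d (b⁻¹ • x) (b • x) := by
      rw [← hI b⁻¹ x ((b * b) • x), mul_smul, inv_smul_smul]
    have e3 : d x ((a⁻¹ * b) • x) = d (a • x) (b • x) := by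
      rw [← hI a x ((a⁻¹ * b) • x), mul_smul, smul_inv_smul]
    have e4 : d x ((b * a⁻¹) • x) = d (b⁻¹ • x) (a⁻¹ • x) := by
      rw [← hI b⁻¹ x ((b * a⁻¹) • x), mul_smul, inv_smul_smul]
    have n1 : d (a⁻¹ • x) (a • x) ≤ lam + 1 := by
      have := nl hlox hPD hH hI hno a a x lam hlam.ge hlam.ge
      rw [e1] at this
      tauto
    have n2 : d (b⁻¹ • x) (b • x) ≤ β + 1 := by
      have := nl hlox hPD hH hI hno b b x β hβ.ge hβ.ge
      rw [e2] at this
      tauto
    have n3 := nl hlox hPD hH hI hno a⁻¹ b x lam hax'.le (hβ ▸ hβl)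
    rw [e3, e4] at n3
    have sx : d (a • x) x = lam := by rw [hPD.symm, hlam]
    have sbx : d (b • x) x = β := by rw [hPD.symm, hβ]
    have sb'x : d (b⁻¹ • x) x = β := by rw [hPD.symm, hbx']
    have key : d (a • x) (b • x) ≤ lam + 3 ∧ d (a • x) (b⁻¹ • x) ≤ lam + 2 := by
      rcases n3 with n3 | n3
      · refine ⟨by linarith, ?_⟩
        rcases four hH (a • x) (b⁻¹ • x) x (b • x) with h | h <;> linarith
      · have h5 : d (a • x) (b⁻¹ • x) ≤ lam + 2 := by
          have s1 : d (a • x) (a⁻¹ • x) ≤ lam + 1 := by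
            rw [hPD.symm]
            exact n1
          rcases four hH (a • x) (b⁻¹ • x) x (a⁻¹ • x) with h | h <;> linarith
        refine ⟨?_, h5⟩
        have s2 : d (b • x) (b⁻¹ • x) ≤ β + 1 := by
          rw [hPD.symm]
          exact n2
        rcases four hH (a • x) (b • x) x (b⁻¹ • x) with h | h <;> linarith
    obtain ⟨k1, k2⟩ := key
    have smx : d m x = 2 := by rw [hPD.symm, hm1]
    have k3 : d m (b • x) ≤ β - 1 := by
      have s3 : d (b • x) (a • x) ≤ lam + 3 := by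
        rw [hPD.symm]
        exact k1
      rcases four hH m (b • x) x (a • x) with h | h <;> linarith
    have k4 : d m (b⁻¹ • x) ≤ β - 1 := by
      have s4 : d (b⁻¹ • x) (a • x) ≤ lam + 2 := by
        rw [hPD.symm]
        exact k2
      rcases four hH m (b⁻¹ • x) x (a • x) with h | h <;> linarith
    have k5 : d (b • m) x ≤ β - 1 := by
      rw [← hI b⁻¹ (b • m) x, inv_smul_smul]
      exact k4
    have k6 : d (b • m) (b • x) = 2 := by rw [hI, smx]
    rcases four hH m (b • m) x (b • x) with h | h <;> linarith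

theorem main : S_lox → S_jd := by
  intro hlox G S _ _ _ d hPD hH hM hI hno A
  by_contra hcon
  push Not at hcon
  have key : ∀ n : ℕ, ∀ x : S, ¬ ∀ b ∈ A, d x (b • x) ≤ n := by
    intro n
    induction n with
    | zero =>
      intro x hx
      obtain ⟨a, ha, h1⟩ := hcon x
      have h2 := hx a ha
      rw [Nat.cast_zero] at h2
      linarith
    | succ n ih =>
      intro x hx
      obtain ⟨a₀, ha₀, h1⟩ := hcon x
      obtain ⟨a, ha, hmax⟩ := Finset.exists_max_image A (fun b => d x (b • x)) ⟨a₀, ha₀⟩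
      have h13 : 13 < d x (a • x) := lt_of_lt_of_le h1 (hmax a₀ ha₀)
      obtain ⟨m, hm⟩ := claim hlox hPD hH hM hI hno A x a hmax h13
      refine ih m fun b hb => ?_
      have h2 := hm b hb
      have h3 := hx a ha
      push_cast at h3
      linarith
  obtain ⟨x⟩ : Nonempty S := inferInstance
  obtain ⟨a₀, ha₀, _⟩ := hcon x
  obtain ⟨a, ha, hmax⟩ := Finset.exists_max_image A (fun b => d x (b • x)) ⟨a₀, ha₀⟩
  obtain ⟨n, hn⟩ := exists_nat_ge (d x (a • x))
  exact key n x fun b hb => (hmax b hb).trans hn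

end Pool.Agent.W155.AH.Jd
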